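import Pool.Agent.H69.KZ.Stm

/-! KZ parts MOD, AMG -/

set_option autoImplicit false

open Finset

namespace Pool.Agent.H98.KZp

open KZ

theorem MOD_proved (hTP2 : S_TP2) (hBAS : S_BAS) (hEVL : S_EVL) : S_MOD := by
  intro r n M y hr hM1 hM y_def
  obtain ⟨hnn, hneg, hbig, hpos, hsym⟩ := hBAS r n hr
  have hMz : (M : ℤ) ≤ (n : ℤ) * ((r : ℤ) - 1) := by
    have : ((r - 1 : ℕ) : ℤ) = (r : ℤ) - 1 := by
      rw [Nat.cast_sub hr]; simp
    rw [← this]
    exact_mod_cast hM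
  have hcM : 1 ≤ c r n (M : ℤ) := hpos _ (by positivity) hMz
  have hcM0 : 0 < c r n (M : ℤ) := by linarith
  have hy0 : 0 ≤ y := by
    rw [y_def]
    exact div_nonneg (hnn _) (hnn _)
  have hy : y * c r n (M : ℤ) = c r n ((M : ℤ) - 1) := by
    rw [y_def]; field_simp
  -- increasing up to M
  have inc : ∀ j : ℕ, j + 1 ≤ M → c r n (j : ℤ) * y ^ j ≤ c r n ((j + 1 : ℕ) : ℤ) * y ^ (j + 1) := by
    intro j hj
    have h1 : c r n (j : ℤ) ≤ c r n ((j + 1 : ℕ) : ℤ) * y := by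
      have h2 : c r n (j : ℤ) * c r n (M : ℤ) ≤ c r n ((j + 1 : ℕ) : ℤ) * c r n ((M : ℤ) - 1) := by
        rcases eq_or_lt_of_le hj with h | h
        · have e1 : ((M : ℤ) - 1) = (j : ℤ) := by omega
          have e2 : (((j + 1 : ℕ) : ℤ)) = (M : ℤ) := by omega
          rw [e1, e2, mul_comm]
        · have := hTP2 r n ((j : ℤ) + 1) ((M : ℤ) - 1) 1 (by omega)
          have e1 : (j : ℤ) + 1 - ((1 : ℕ) : ℤ) = (j : ℤ) := by push_cast; ring
          have e2 : (M : ℤ) - 1 + ((1 : ℕ) : ℤ) = (M : ℤ) := by push_cast; ring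
          rw [e1, e2] at this
          push_cast
          exact this
      rw [← hy] at h2
      have h3 : c r n (j : ℤ) * c r n (M : ℤ) ≤ (c r n ((j + 1 : ℕ) : ℤ) * y) * c r n (M : ℤ) := by
        linarith
      exact le_of_mul_le_mul_right h3 hcM0
    calc c r n (j : ℤ) * y ^ j ≤ (c r n ((j + 1 : ℕ) : ℤ) * y) * y ^ j :=
          mul_le_mul_of_nonneg_right h1 (pow_nonneg hy0 j)
      _ = _ := by ring
  have dec : ∀ j : ℕ, M ≤ j → c r n ((j + 1 : ℕ) : ℤ) * y ^ (j + 1) ≤ c r n (j : ℤ) * y ^ j := by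
    intro j hj
    have h1 : c r n ((j + 1 : ℕ) : ℤ) * y ≤ c r n (j : ℤ) := by
      have h2 : c r n ((M : ℤ) - 1) * c r n ((j + 1 : ℕ) : ℤ) ≤ c r n (M : ℤ) * c r n (j : ℤ) := by
        have := hTP2 r n (M : ℤ) (j : ℤ) 1 (by exact_mod_cast hj)
        have e1 : (M : ℤ) - ((1 : ℕ) : ℤ) = (M : ℤ) - 1 := by push_cast; ring
        have e2 : (j : ℤ) + ((1 : ℕ) : ℤ) = ((j + 1 : ℕ) : ℤ) := by push_cast; ring
        rw [e1, e2] at this
        exact this
      rw [← hy] at h2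
      have h3 : (c r n ((j + 1 : ℕ) : ℤ) * y) * c r n (M : ℤ) ≤ c r n (j : ℤ) * c r n (M : ℤ) := by
        linarith
      exact le_of_mul_le_mul_right h3 hcM0
    calc c r n ((j + 1 : ℕ) : ℤ) * y ^ (j + 1) = (c r n ((j + 1 : ℕ) : ℤ) * y) * y ^ j := by ring
      _ ≤ _ := mul_le_mul_of_nonneg_right h1 (pow_nonneg hy0 j)
  have hall : ∀ j : ℕ, c r n (j : ℤ) * y ^ j ≤ c r n (M : ℤ) * y ^ M := by
    intro j
    rcases le_total j M with h | h
    · induction h using Nat.decreasingInduction with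
      | self => exact le_rfl
      | of_succ k hk ih => exact (inc k hk).trans ih
    · induction j, h using Nat.le_induction with
      | base => exact le_rfl
      | succ k hk ih => exact (dec k hk).trans ih
  rw [← hEVL r n y hr]
  have h1 : ∑ m ∈ Finset.range (n * (r - 1) + 1), c r n (m : ℤ) * y ^ m ≤
      ∑ m ∈ Finset.range (n * (r - 1) + 1), c r n (M : ℤ) * y ^ M :=
    Finset.sum_le_sum fun j _ => hall j
  refine h1.trans (le_of_eq ?_)
  rw [Finset.sum_const, Finset.card_range, nsmul_eq_mul]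
  push_cast [Nat.cast_sub hr]
  ring

/-- `A(t+1) = ∑_{i<t} exp((i+1)/(t+1) l)` -/
noncomputable def A (l : ℝ) (t : ℕ) : ℝ :=
  ∑ i ∈ range t, Real.exp ((((i : ℝ) + 1) / ((t : ℝ) + 1)) * l)

theorem A_step (l : ℝ) (t : ℕ) : ((t : ℝ) + 1) * A l t ≤ t * A l (t + 1) := by
  have ht : (0 : ℝ) < (t : ℝ) + 1 := by positivity
  have ht2 : (0 : ℝ) < (t : ℝ) + 1 + 1 := by positivity
  set E : ℕ → ℝ := fun i => Real.exp ((((i : ℝ) + 1) / ((t : ℝ) + 1 + 1)) * l) with hE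
  have h1 : ∀ i ∈ range t, ((t : ℝ) + 1) * Real.exp ((((i : ℝ) + 1) / ((t : ℝ) + 1)) * l) ≤
      ((t : ℝ) - i) * E i + ((i : ℝ) + 1) * E (i + 1) := by
    intro i hi
    have hi' : (i : ℝ) + 1 ≤ t := by exact_mod_cast mem_range.1 hi
    have ha : 0 ≤ ((t : ℝ) - i) / ((t : ℝ) + 1) := div_nonneg (by linarith) ht.le
    have hb : 0 ≤ ((i : ℝ) + 1) / ((t : ℝ) + 1) := div_nonneg (by positivity) ht.le
    have hab : ((t : ℝ) - i) / ((t : ℝ) + 1) + ((i : ℝ) + 1) / ((t : ℝ) + 1) = 1 := by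
      field_simp; ring
    have hc := convexOn_exp.2 (Set.mem_univ ((((i : ℝ) + 1) / ((t : ℝ) + 1 + 1)) * l))
      (Set.mem_univ ((((i : ℝ) + 1 + 1) / ((t : ℝ) + 1 + 1)) * l)) ha hb hab
    simp only [smul_eq_mul] at hc
    have e1 : ((t : ℝ) - i) / (t + 1) * (((i : ℝ) + 1) / ((t : ℝ) + 1 + 1) * l) +
        ((i : ℝ) + 1) / (t + 1) * (((i : ℝ) + 1 + 1) / ((t : ℝ) + 1 + 1) * l) =
        (((i : ℝ) + 1) / ((t : ℝ) + 1)) * l := by
      field_simp
      ring
    rw [e1] at hc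
    have h2 := mul_le_mul_of_nonneg_left hc ht.le
    refine h2.trans (le_of_eq ?_)
    simp only [hE]
    push_cast
    field_simp
  have h2 : ((t : ℝ) + 1) * A l t ≤ ∑ i ∈ range t, (((t : ℝ) - i) * E i + ((i : ℝ) + 1) * E (i + 1)) := by
    unfold A
    rw [Finset.mul_sum]
    exact sum_le_sum h1
  refine h2.trans (le_of_eq ?_)
  rw [sum_add_distrib]
  have e1 : ∑ i ∈ range t, ((t : ℝ) - i) * E i = ∑ i ∈ range (t + 1), ((t : ℝ) - i) * E i := by
    rw [sum_range_succ]; ring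
  have e2 : ∑ i ∈ range t, ((i : ℝ) + 1) * E (i + 1) = ∑ i ∈ range (t + 1), (i : ℝ) * E i := by
    rw [sum_range_succ']; push_cast; simp
  rw [e1, e2, ← sum_add_distrib]
  unfold A
  rw [mul_sum]
  refine sum_congr rfl fun i _ => ?_
  simp only [hE]
  push_cast
  ring

theorem A_nonneg (l : ℝ) (t : ℕ) : 0 ≤ A l t := sum_nonneg fun _ _ => (Real.exp_pos _).le

theorem A_mono (l : ℝ) (s k : ℕ) : ((s : ℝ) + k) * A l s ≤ s * A l (s + k) := by
  induction k with
  | zero => simp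
  | succ k ih =>
    have h := A_step l (s + k)
    push_cast at h ⊢
    rcases Nat.eq_zero_or_pos (s + k) with h0 | h0
    · have hs : s = 0 := by omega
      subst hs
      simp [A]
    · have hpos : (0 : ℝ) < (s : ℝ) + k := by exact_mod_cast h0
      have e : s + (k + 1) = s + k + 1 := rfl
      rw [e]
      have hs0 : (0 : ℝ) ≤ s := Nat.cast_nonneg s
      have h1 : ((s : ℝ) + k) * (((s : ℝ) + (k + 1)) * A l s) ≤
          ((s : ℝ) + k) * (s * A l (s + k + 1)) := by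
        calc ((s : ℝ) + k) * (((s : ℝ) + (k + 1)) * A l s) =
              ((s : ℝ) + k + 1) * (((s : ℝ) + k) * A l s) := by ring
          _ ≤ ((s : ℝ) + k + 1) * (s * A l (s + k)) :=
              mul_le_mul_of_nonneg_left ih (by positivity)
          _ = s * (((s : ℝ) + k + 1) * A l (s + k)) := by ring
          _ ≤ s * (((s : ℝ) + k) * A l (s + k + 1)) := mul_le_mul_of_nonneg_left h hs0
          _ = _ := by ring
      exact le_of_mul_le_mul_left h1 hpos

theorem P_eq (t : ℕ) (x l : ℝ) (hx : 0 < x) (hl : l = ((t : ℝ) + 1) * Real.log x) :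
    P (t + 1) x = 1 + A l t := by
  unfold P A
  rw [sum_range_succ', pow_zero, add_comm]
  congr 1
  refine sum_congr rfl fun i _ => ?_
  have ht : (t : ℝ) + 1 ≠ 0 := by positivity
  rw [hl]
  have e : ((i : ℝ) + 1) / ((t : ℝ) + 1) * (((t : ℝ) + 1) * Real.log x) =
      ((i + 1 : ℕ) : ℝ) * Real.log x := by
    push_cast
    field_simp
  rw [e, Real.exp_nat_mul, Real.exp_log hx]

theorem AMG_proved : S_AMG := by
  intro s r y hs hsr hr hy
  obtain ⟨s, rfl⟩ : ∃ t, s = t + 1 := ⟨s - 1, by omega⟩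
  obtain ⟨k, rfl⟩ : ∃ k, r = s + k + 1 := ⟨r - (s + 1), by omega⟩
  have hpos : (0 : ℝ) < (s : ℝ) + k := by
    have : 0 < s + k := by omega
    exact_mod_cast this
  have hs1 : (0 : ℝ) < (s : ℝ) + 1 := by positivity
  have h1 := P_eq (s + k) y (((s + k : ℕ) + 1 : ℝ) * Real.log y) hy rfl
  have hx : 0 < y ^ (((s + k + 1 : ℕ) : ℝ) / ((s + 1 : ℕ) : ℝ)) := Real.rpow_pos_of_pos hy _
  have h2 := P_eq s (y ^ (((s + k + 1 : ℕ) : ℝ) / ((s + 1 : ℕ) : ℝ)))
    (((s + k : ℕ) + 1 : ℝ) * Real.log y) hx (by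
      rw [Real.log_rpow hy]
      push_cast
      field_simp)
  rw [h1, h2]
  have h3 := A_mono (((s + k : ℕ) + 1 : ℝ) * Real.log y) s k
  push_cast
  push_cast at h3
  set a := A (((s : ℝ) + k + 1) * Real.log y) s
  set b := A (((s : ℝ) + k + 1) * Real.log y) (s + k)
  have e : 1 + b - ((s : ℝ) + k + 1 - (s + 1)) / ((s : ℝ) + k + 1 - 1) * (1 + b - 1) =
      1 + s * b / ((s : ℝ) + k) := by
    have e1 : (s : ℝ) + k + 1 - 1 = s + k := by ring
    rw [e1]
    field_simp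
    ring
  rw [e]
  have : a ≤ s * b / ((s : ℝ) + k) := by
    rw [le_div_iff₀ hpos]
    linarith
  linarith

end Pool.Agent.H98.KZp
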